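import Pool.Agent.Q222.HZ.Core

namespace Pool.Agent.Results.MP_f1b42c_lc.ResetTuple

open Q222.HZ

/-- The output of the algorithm, in binary, least significant digit first: every entry of the tuple
is the digit string `0 … 0 1` with `n (m + 2)` zeros. It depends only on `n` and `m`. -/
def output (n m : ℕ) : Fin m → List ℕ := fun _ => List.replicate (n * (m + 2)) 0 ++ [1]

/-- **Main theorem.** For every `m`-primitive automaton with `n` states and `m` actions, the tuple
whose binary digit strings are `output n m` (all entries equal to `2 ^ (n (m + 2))`, written with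
`m (n (m + 2) + 1)` digits in total) is a reset `m`-tuple; moreover its Hurwitz product has all
entries positive. So is every tuple all of whose entries are at least `m n + n ^ (m + 1)`. -/
theorem result (n m : ℕ) (a : Fin m → Fin n → Fin n) (hn : 0 < n) (ha : MPrimitive a) :
    (∀ i, Nat.digits 2 (2 ^ (n * (m + 2))) = output n m i) ∧
    ResetTuple a (fun i => Nat.ofDigits 2 (output n m i)) ∧
    (∀ q p, 0 < hurwitz a (fun i => Nat.ofDigits 2 (output n m i)) q p) ∧
    ∀ β : Fin m → ℕ, (∀ i, m * n + n ^ (m + 1) ≤ β i) →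
      ResetTuple a β ∧ ∀ q p, 0 < hurwitz a β q p := by
  obtain ⟨α, hα1, hα⟩ := ha
  have hm : 0 < m := by
    rcases Nat.eq_zero_or_pos m with h | h
    · subst h
      simp at hα1
    · exact h
  have hw : ∀ p q, ∃ w : List (Fin m), (∀ i, w.count i = α i) ∧ act a w p = q :=
    fun p q => (hurwitz_pos_iff a α q p).1 (hα q p)
  have key : ∀ β : Fin m → ℕ, (∀ i, m * n + n ^ (m + 1) ≤ β i) →
      ResetTuple a β ∧ ∀ q p, 0 < hurwitz a β q p := by
    intro β hβ
    refine ⟨⟨?_, ⟨0, hn⟩, fun p => large hn α hw β hβ p _⟩,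
      fun q p => (hurwitz_pos_iff a β q p).2 (large hn α hw β hβ p q)⟩
    calc 1 ≤ m * n := Nat.mul_pos hm hn
      _ ≤ β ⟨0, hm⟩ := le_trans (Nat.le_add_right _ _) (hβ _)
      _ ≤ ∑ i, β i := Finset.single_le_sum (f := β) (fun _ _ => Nat.zero_le _) (Finset.mem_univ _)
  have hdig : ∀ k : ℕ, Nat.ofDigits 2 (List.replicate k 0 ++ [1]) = 2 ^ k := by
    intro k
    induction k with
    | zero => simp
    | succ k ih =>
      rw [List.replicate_succ, List.cons_append, Nat.ofDigits_cons, ih, pow_succ]
      ring
  have hout : ∀ i, Nat.ofDigits 2 (output n m i) = 2 ^ (n * (m + 2)) := fun i => hdig _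
  have hβ : ∀ i : Fin m, m * n + n ^ (m + 1) ≤ Nat.ofDigits 2 (output n m i) := by
    intro i
    rw [hout i]
    exact bound_le hn
  refine ⟨fun i => ?_, (key _ hβ).1, (key _ hβ).2, key⟩
  rw [← hout i]
  apply Nat.digits_ofDigits 2 (by norm_num)
  · intro l hl
    simp only [output, List.mem_append, List.mem_replicate, List.mem_singleton] at hl
    omega
  · intro h
    simp [output]

end Pool.Agent.Results.MP_f1b42c_lc.ResetTuple
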